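import Mathlib
import Pool.Agent.W635.CHEx
import Pool.Agent.W635.ConcZfc

/-!
# MP_e8f8b0_gt: Hurewicz `𝔟`-concentrated sets of reals need not be productively Hurewicz

The first part says that a combinatorial principle is forced by a notion of forcing `P` (which
exists outright). `P` adds `ω₂` Cohen reals and then is a finite support iteration of Hechler
forcing of length `ω₂`, presented through names for promises. See `Pool.Agent.W635.CHDefs` for the
principle (`Principle` is the statement about actual objects, `ForcedPrinciple` the same statement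
in the forcing language) and `Pool.Agent.Helper669.Forcing` for the forcing language.

The second part is a theorem about actual objects: whenever the principle holds, there are two
Hurewicz `𝔟`-concentrated sets of reals whose product is not Hurewicz. So the answer to Q1 is
negative.
-/

set_option autoImplicit false

namespace Pool.Agent.Results.MP_e8f8b0_gt.ForcedNotProductive

open Set Filter Cardinal Pool.Agent.H752R3 Pool.Agent.W635.CHDefs

/-- The bounding number: the least cardinality of a family of functions which is unbounded under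
eventual domination. -/
noncomputable def bNumber : Cardinal.{0} :=
  sInf {κ | ∃ B : Set (ℕ → ℕ), (∀ g : ℕ → ℕ, ∃ f ∈ B, ¬ ∀ᶠ n in atTop, f n ≤ g n) ∧ #B = κ}

/-- `X` is `κ`-concentrated (on some countable subset). -/
def IsConcentrated (κ : Cardinal.{0}) (X : Set (ℕ → Bool)) : Prop :=
  κ ≤ #X ∧ ∃ A : Set (ℕ → Bool), A ⊆ X ∧ A.Countable ∧
    ∀ U : Set (ℕ → Bool), IsOpen U → A ⊆ U → #(X \ U : Set (ℕ → Bool)) < κ

/-- (1) There is a notion of forcing `P` all of whose conditions force the principle (for some
well-ordered set `K` and disjoint bounded subsets `A`, `A'` of `K`).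
(2) If the principle holds, then there are Hurewicz `𝔟`-concentrated sets of reals `X` and `Y`
such that `X × Y` is not Hurewicz. -/
theorem result :
    (∃ (P : Type) (_ : Preorder P) (K : Type) (_ : LinearOrder K) (_ : WellFoundedLT K)
      (A A' : Set K), Nonempty P ∧ Disjoint A A' ∧ (∃ γ : K, ∀ k ∈ A ∪ A', k < γ) ∧
        ∀ p : P, p ∈ ForcedPrinciple P K A A') ∧
    (∀ (K : Type) [LinearOrder K] [WellFoundedLT K] (A A' : Set K) (w : K → ℕ → Bool)
      (f : K → ℕ → ℕ), Disjoint A A' → (∃ γ : K, ∀ k ∈ A ∪ A', k < γ) →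
        Principle K A A' w f →
        ∃ X Y : Set (ℕ → Bool), HurewiczSp X ∧ IsConcentrated bNumber X ∧
          HurewiczSp Y ∧ IsConcentrated bNumber Y ∧ ¬ HurewiczSp (X × Y)) := by
  refine ⟨Pool.Agent.W635.CH.exists_forcing, ?_⟩
  intro K _ _ A A' w f hAA hγ h
  obtain ⟨γ, hγ⟩ := hγ
  have hb : bNumber = #K := (Pool.Agent.W635.CHZfc.numbers h).1
  refine ⟨_, _, Pool.Agent.W635.Conc.hurewicz_XX h ⟨γ, fun k hk => hγ k (Or.inl hk)⟩
    h.concentrated, ?_, Pool.Agent.W635.Conc.hurewicz_XX h ⟨γ, fun k hk => hγ k (Or.inr hk)⟩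
    h.concentrated', ?_, Pool.Agent.W635.Conc.not_hurewicz h hAA⟩
  · rw [hb]
    exact Pool.Agent.W635.Conc.concentrated_XX h ⟨γ, fun k hk => hγ k (Or.inl hk)⟩
  · rw [hb]
    exact Pool.Agent.W635.Conc.concentrated_XX h ⟨γ, fun k hk => hγ k (Or.inr hk)⟩

end Pool.Agent.Results.MP_e8f8b0_gt.ForcedNotProductive
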